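import Pool.Agent.H.MP_26ac3f_lc.B

namespace Pool.Agent.Results.MP_26ac3f_lc.Q2

open Filter Topology

/-- uniform distribution modulo one -/
def UDmod1 (x : ℕ → ℝ) : Prop := ∀ a b : ℝ, 0 ≤ a → a ≤ b → b ≤ 1 →
  Tendsto (fun N : ℕ =>
    (((Finset.range N).filter (fun n => a ≤ Int.fract (x n) ∧ Int.fract (x n) < b)).card : ℝ)
      / (N : ℝ)) atTop (𝓝 (b - a))

/-- the set N(α) -/
def Nor (α : ℝ) : Set ℝ := {ξ | UDmod1 (fun n => ξ * α ^ n)}

/-- Pisot numbers -/
def IsPisot (θ : ℝ) : Prop := IsIntegral ℤ θ ∧ 1 < θ ∧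
  ∀ z : ℂ, Polynomial.aeval z (minpoly ℚ θ) = 0 → z ≠ (θ : ℂ) → ‖z‖ < 1

/-- the intersection of N(α) over all real α with |α| Pisot -/
def I : Set ℝ := ⋂ α ∈ {α : ℝ | IsPisot |α|}, Nor α

/-- boldface Pi-0-3: countable intersections of countable unions of closed sets -/
def Pi03 {Y : Type} [TopologicalSpace Y] (B : Set Y) : Prop :=
  ∃ F : ℕ → ℕ → Set Y, (∀ i j, IsClosed (F i j)) ∧ B = ⋂ i, ⋃ j, F i j

theorem two : IsPisot |(2 : ℝ)| := by
  have e : |(2 : ℝ)| = algebraMap ℚ ℝ 2 := by norm_num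
  refine ⟨?_, by norm_num, fun z hz hne => ?_⟩
  · have : |(2 : ℝ)| = algebraMap ℤ ℝ 2 := by norm_num
    rw [this]; exact isIntegral_algebraMap
  · exfalso
    rw [e, minpoly.eq_X_sub_C] at hz
    apply hne
    simp only [map_sub, Polynomial.aeval_X, Polynomial.aeval_C, sub_eq_zero] at hz
    rw [hz]; norm_num

theorem cnt : {α : ℝ | IsPisot |α|}.Countable := by
  apply (Algebraic.countable ℤ ℝ).mono
  intro α h
  have h1 : IsIntegral ℤ |α| := h.1
  rcases abs_choice α with e | e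
  · rw [e] at h1; exact h1.isAlgebraic
  · rw [e] at h1
    have := h1.neg
    rw [neg_neg] at this
    exact this.isAlgebraic

theorem result : Pi03 I ∧
    ∀ (Y : Type) [TopologicalSpace Y] [PolishSpace Y],
      TopologicalSpace.IsTopologicalBasis {s : Set Y | IsClopen s} →
      ∀ B : Set Y, Pi03 B → ∃ f : Y → ℝ, Continuous f ∧ B = f ⁻¹' I := by
  obtain ⟨α, hα⟩ := cnt.exists_eq_range ⟨2, two⟩
  have hI : I = {ξ : ℝ | ∀ k, Pool.Agent.H.MP_7a0c2d_lc.UD (fun n => ξ * α k ^ n)} := by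
    unfold I
    rw [hα, Set.biInter_range]
    ext ξ
    simp only [Set.mem_iInter, Set.mem_ofPred_eq]
    rfl
  have h1 : ∀ k, 1 < |α k| := fun k => by
    have : α k ∈ {α : ℝ | IsPisot |α|} := hα ▸ Set.mem_range_self k
    exact this.2.1
  have h2 : ∃ k, α k = 2 := by
    have : (2 : ℝ) ∈ Set.range α := hα ▸ two
    exact this
  constructor
  · choose F F1 F2 using fun k => Pool.Agent.H.MP_7a0c2d_lc.pi03 (α k)
    refine ⟨fun i j => F (Nat.unpair i).1 (Nat.unpair i).2 j, fun i j => F1 _ _ _, ?_⟩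
    rw [hI]
    ext ξ
    simp only [Set.mem_iInter, Set.mem_ofPred_eq]
    constructor
    · intro h i
      have := (F2 (Nat.unpair i).1).subset (h _)
      exact Set.mem_iInter.mp this _
    · intro h k
      apply (F2 k).superset
      refine Set.mem_iInter.mpr fun i => ?_
      simpa only [Nat.unpair_pair] using h (Nat.pair k i)
  · rintro Y _ _ hY B ⟨G, hG, rfl⟩
    obtain ⟨e, e1, e2⟩ := Pool.Agent.H.MP_26ac3f_lc.embed Y hY
    obtain ⟨f, f1, f2⟩ := Pool.Agent.H.MP_26ac3f_lc.hard2 α h1 h2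
      (fun i j => closure (e '' G i j)) (fun _ _ => isClosed_closure)
    refine ⟨f ∘ e, f1.comp e1, ?_⟩
    rw [Set.preimage_comp, hI, f2, Set.preimage_iInter]
    refine Set.iInter_congr fun i => ?_
    rw [Set.preimage_iUnion]
    exact Set.iUnion_congr fun j => (e2 _ (hG i j)).symm

end Pool.Agent.Results.MP_26ac3f_lc.Q2
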